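import Pool.Agent.Y241.PN.Fam

/-!
# MP_e87149_gt, Q1: infinitely many orientation-reversing pseudo-Anosov classes of the
four-punctured sphere without a power arising from Penner's construction

The definitions are those of `Pool/Agent/H967R3/Pen/Defs.lean`: the four-punctured sphere is
described through its fundamental group `F3`, the mapping classes are the outer classes of the
automorphisms `φ` with `Geometric ε φ` (`ε = 1` orientation-preserving, `ε = -1`
orientation-reversing), Dehn twists are the conjugates of `twist0`, and `ArisesFromPenner h`,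
`IsPseudoAnosov f` are the notions of the question.

The class `fam t` is `half ^ t * refl`, where `half` is the half twist whose square is the Dehn
twist `twist0` and `refl` is a reflection; it acts on the double cover of the sphere by a torus,
up to sign, by the matrix `[[t, 1], [1, 0]]` of determinant `-1` and its stretch factor is
`(t + √(t² + 4)) / 2`.
-/

set_option autoImplicit false

namespace Pool.Agent.Results.MP_e87149_gt.ParityFamily

open Pool.Agent.H967R3.Pen Pool.Agent.Y241.PN

/-- Different members of the family are not conjugate in the extended mapping class group. -/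
lemma not_conj {s t : ℕ} (hst : s ≠ t) (ε : ℤˣ) (φ : MulAut F3) (hφ : Geometric ε φ) :
    ((φ * fam s * φ⁻¹ : MulAut F3) : OutF3) ≠ ((fam t : MulAut F3) : OutF3) := by
  intro h
  have hp := hφ.parPres
  have hs := (fam_geometric s).parPres
  have h1 := lin_out ((hp.mul hs).mul hp.inv) h
  rw [lin_mul (hp.mul hs) hp.inv, lin_mul hp hs, lin_fam, lin_fam] at h1
  have htr : (lin φ * Ft s * lin φ⁻¹).trace = (Ft s).trace := by
    rw [Matrix.trace_mul_comm, ← Matrix.mul_assoc, (lin_inv hp).2, Matrix.one_mul]
  have e : ∀ r : ℤ, (Ft r).trace = -r := by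
    intro r
    simp [Ft, Matrix.trace, Fin.sum_univ_two]
  rcases h1 with h1 | h1
  · have := congrArg Matrix.trace h1
    rw [htr, e, e] at this
    omega
  · have := congrArg Matrix.trace h1
    rw [Matrix.trace_neg, htr, e, e] at this
    omega

/-- There is an infinite family `f 0, f 1, …` of orientation-reversing mapping classes of the
four-punctured sphere, pairwise not conjugate in the extended mapping class group, such that
`f t` is pseudo-Anosov for `t ≥ 1`, and for `t ≥ 2` some positive power of `f t` arises from
Penner's construction if and only if `t` is even (and then the square does). -/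
theorem result : ∃ f : ℕ → MulAut F3,
    (∀ t, Geometric (-1) (f t)) ∧
    (∀ t, 1 ≤ t → IsPseudoAnosov (f t)) ∧
    (∀ s t, s ≠ t → ∀ (ε : ℤˣ) (φ : MulAut F3), Geometric ε φ →
      ((φ * f s * φ⁻¹ : MulAut F3) : OutF3) ≠ ((f t : MulAut F3) : OutF3)) ∧
    (∀ t, 2 ≤ t → Even t → ArisesFromPenner ((f t ^ 2 : MulAut F3) : OutF3)) ∧
    (∀ t, 2 ≤ t → ¬ Even t → ∀ k : ℕ, 1 ≤ k →
      ¬ ArisesFromPenner ((f t ^ k : MulAut F3) : OutF3)) := by
  refine ⟨fam, fam_geometric, fun t ht => fam_pseudoAnosov ht,
    fun s t hst ε φ hφ => not_conj hst ε φ hφ, ?_, ?_⟩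
  · rintro t ht ⟨s, rfl⟩
    rw [← two_mul]
    exact fam_sq_penner (by omega)
  · intro t ht hodd k hk
    rw [Nat.not_even_iff_odd] at hodd
    refine fam_not_penner ?_ hodd k hk
    obtain ⟨s, rfl⟩ := hodd
    omega

end Pool.Agent.Results.MP_e87149_gt.ParityFamily
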